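import Pool.Agent.P.MP_0a0487_an.FDefs
import Pool.Agent.P.MP_0a0487_an.SX.MainB

set_option autoImplicit false

open Bundle
open scoped Manifold ContDiff
open Pool.Agent.P.MP_0a0487_an

namespace Pool.Agent.Results.MP_0a0487_an.FourDimCover

/-- If a closed connected four-manifold `M` carries a smooth Anosov diffeomorphism `f` with
two-dimensional stable and unstable bundles and without wandering points, then there is a covering
map from `ℝ ^ 4` onto `M` which is `ℤ ^ 4`-periodic and under which a hyperbolic matrix of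
`SL(4, ℤ)` covers an iterate of `f`. -/
theorem result (M : Type) [TopologicalSpace M] [T2Space M] [CompactSpace M] [ConnectedSpace M]
    [ChartedSpace R4 M] [IsManifold 𝓘(ℝ, R4) ∞ M]
    [RiemannianBundle (fun x : M => TangentSpace 𝓘(ℝ, R4) x)]
    [IsContinuousRiemannianBundle R4 (fun x : M => TangentSpace 𝓘(ℝ, R4) x)]
    (f : M ≃ₘ^∞⟮𝓘(ℝ, R4), 𝓘(ℝ, R4)⟯ M)
    (hf : IsAnosov f 2)
    (nw : ∀ U : Set M, IsOpen U → U.Nonempty → ∃ m : ℕ, 1 ≤ m ∧ (f^[m] '' U ∩ U).Nonempty) :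
    ∃ (p : (Fin 4 → ℝ) → M) (A : Matrix (Fin 4) (Fin 4) ℤ) (N : ℕ),
      IsCoveringMap p ∧ Function.Surjective p ∧
      (∀ (x : Fin 4 → ℝ) (i : Fin 4), p (x + Pi.single i 1) = p x) ∧ A.det = 1 ∧
      (∀ z : ℂ, (A.map (Int.cast : ℤ → ℂ)).charpoly.IsRoot z → ‖z‖ ≠ 1) ∧ 1 ≤ N ∧
      ∀ x : Fin 4 → ℝ, p ((A.map (Int.cast : ℤ → ℝ)).mulVec x) = f^[N] (p x) :=
  SX4.covering M f hf nw

end Pool.Agent.Results.MP_0a0487_an.FourDimCover
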