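import Pool.Agent.P.MP_0a0487_an.Defs
import Pool.Agent.P.MP_0a0487_an.Manifold
import Pool.Agent.P.MP_0a0487_an.Power
import Pool.Agent.P.MP_0a0487_an.FrameCover

set_option autoImplicit false

open Bundle
open scoped Manifold ContDiff
open Pool.Agent.P.MP_0a0487_an

namespace Pool.Agent.Results.MP_0a0487_an.WeakPinched

/-- Let `f` be an Anosov diffeomorphism with dense periodic points of a closed connected manifold.
Let `L` be a continuous line field in the unstable bundle, with a continuous complement `F`. If the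
contraction rates lie in `[l1, l2]`, the expansion rates on `F ⊓ Eu` lie in `[m2, m1]`, those on
`Eu` in `[m2, m0]`, and `log l2 / log l1 + log m2 / log m1 > 1`, then the manifold is covered by
Euclidean space. -/
theorem result (E : Type*) [NormedAddCommGroup E] [NormedSpace ℝ E] [FiniteDimensional ℝ E]
    (M : Type*) [TopologicalSpace M] [T2Space M] [CompactSpace M]
    [ConnectedSpace M] [ChartedSpace E M] [IsManifold 𝓘(ℝ, E) ∞ M]
    [RiemannianBundle (fun x : M => TangentSpace 𝓘(ℝ, E) x)]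
    [IsContinuousRiemannianBundle E (fun x : M => TangentSpace 𝓘(ℝ, E) x)]
    (f : M ≃ₘ^1⟮𝓘(ℝ, E), 𝓘(ℝ, E)⟯ M) (Es Eu F L : SubField E M)
    (hsplit : IsSplitting Es Eu) (hs : Invariant f Es) (hu : Invariant f Eu)
    (hper : Dense (Function.periodicPts f))
    (hFL : IsSplitting F L) (hL : ∀ x, L x ≤ Eu x) (hL1 : ∀ x, Module.finrank ℝ (L x) = 1)
    (C l1 l2 m2 m1 m0 : ℝ) (hC : 0 < C) (h1 : 0 < l1) (h2 : l1 ≤ l2) (h3 : l2 < 1) (h4 : 1 < m2)
    (h5 : m2 ≤ m1) (h6 : m2 ≤ m0) (rs : Rates f Es C l1 l2) (ru : Rates f Eu C m2 m0)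
    (rw : Rates f (fun x => F x ⊓ Eu x) C m2 m1)
    (pin : 1 < Real.log l2 / Real.log l1 + Real.log m2 / Real.log m1) :
    ∃ p : EuclideanSpace ℝ (Fin (Module.finrank ℝ E)) → M,
      IsCoveringMap p ∧ Function.Surjective p := by
  obtain ⟨hc, hcont⟩ := hsplit
  obtain ⟨hc', hcont'⟩ := hFL
  obtain ⟨k, e, he, hemb, hi⟩ := exists_embedding_euclidean_of_compact (I := 𝓘(ℝ, E)) (M := M)
  letI : MetricSpace M := hemb.isEmbedding.comapMetricSpace e
  have hf : ContMDiff 𝓘(ℝ, E) 𝓘(ℝ, E) 1 f := f.contMDiff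
  have inv : ∀ A : SubField E M, Invariant f A →
      ∀ (m : ℕ) (x : M), ∀ v ∈ A x, mfderiv 𝓘(ℝ, E) 𝓘(ℝ, E) f^[m] x v ∈ A (f^[m] x) := by
    intro A hA m
    induction m with
    | zero =>
      intro x v hv
      rw [Function.iterate_zero, mfderiv_id]
      exact hv
    | succ m ih =>
      intro x v hv
      have := mfderiv_comp_apply x ((hf.iterate m).mdifferentiableAt one_ne_zero)
        (hf.mdifferentiableAt one_ne_zero) v
      rw [Function.iterate_succ, this]
      exact ih (f x) _ ((hA x).subset (Set.mem_image_of_mem _ hv))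
  have c1 : 1 ≤ max C 1 := le_max_right _ _
  have c2 : C ≤ max C 1 := le_max_left _ _
  have c3 : (max C 1)⁻¹ ≤ C⁻¹ := inv_anti₀ hC c2
  have c4 : (max C 1)⁻¹ ≤ max C 1 := (inv_le_one_of_one_le₀ c1).trans c1
  obtain ⟨N, n1, n2, n3, n4⟩ := choose_power c1 h1 h2 h3 h4 h5 pin
  have q2 : 0 < l2 := h1.trans_le h2
  have q4 : 0 < m2 := by linarith
  have q5 : 0 < m1 := by linarith
  have q6 : 0 < m0 := by linarith
  have fr := fun (g : M → M) (hg : ContMDiff 𝓘(ℝ, E) 𝓘(ℝ, E) 1 g) =>
    frame_of_embedding (he.of_le (by simp)) (fun a b => dist_eq_norm (e a) (e b)) hi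
      hg (P := fun x => (Es x).projection (Eu x) (hc x))
      (fun x v => Submodule.projection_apply_of_mem_left _ (Submodule.projection_apply_mem _ v))
      hcont
  refine (fr _ (hf.iterate N)).covering (H := f.symm^[N]) (m0 := max C 1 * m0 ^ N)
    (frame_of_embedding (he.of_le (by simp)) (fun a b => dist_eq_norm (e a) (e b)) hi
      (hf.iterate N) (P := fun x => (F x).projection (L x) (hc' x))
      (fun x v => Submodule.projection_apply_of_mem_left _ (Submodule.projection_apply_mem _ v))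
      hcont') (fun j => fr _ ((hf.iterate N).iterate j))
    ⟨f.continuous.iterate N, f.symm.continuous.iterate N,
      Function.LeftInverse.iterate f.apply_symm_apply N,
      Function.LeftInverse.iterate f.symm_apply_apply N⟩
    (hper.mono fun x hx => ?_)
    (fun x => rfl) (by positivity) (by gcongr) n2 n3 (by gcongr) (by gcongr)
    (fun x v hv => ?_) (fun x v hv => ?_) (fun x => ?_) (zero_le_one.trans c1)
    (fun j x v hv hv' => ?_) n4
  · obtain ⟨m, m0, hm⟩ := hx
    exact ⟨m, m0, hm.iterate N⟩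
  · have hv' : v ∈ Es x := hv ▸ Submodule.projection_apply_mem _ v
    obtain ⟨t1, t2⟩ := rs N n1 x v hv'
    simp only [len] at t1 t2
    exact ⟨Submodule.projection_apply_of_mem_left _ (inv Es hs N x v hv'),
      le_trans (by gcongr) t1, t2.trans (by gcongr)⟩
  · have hv' : v ∈ Eu x := (Submodule.projection_apply_eq_zero_iff _).1 hv
    obtain ⟨t1, t2⟩ := ru N n1 x v hv'
    simp only [len] at t1 t2
    exact ⟨Submodule.projection_apply_of_mem_right _ (inv Eu hu N x v hv'),
      le_trans (by gcongr) t1, t2.trans (by gcongr)⟩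
  · obtain ⟨⟨w, hw⟩, w0, w1⟩ := finrank_eq_one_iff'.1 (hL1 x)
    have w2 : ‖w‖ ≠ 0 := norm_ne_zero_iff.2 fun h => w0 (Subtype.ext h)
    have w3 : ‖w‖⁻¹ • w ∈ L x := (L x).smul_mem _ hw
    refine ⟨‖w‖⁻¹ • w, by rw [norm_smul, norm_inv, norm_norm, inv_mul_cancel₀ w2],
      Submodule.projection_apply_of_mem_right _ (hL x w3),
      Submodule.projection_apply_of_mem_right _ w3, fun v hv => ?_⟩
    obtain ⟨c, hc⟩ := w1 ⟨v, (Submodule.projection_apply_eq_zero_iff _).1 hv⟩
    refine ⟨c * ‖w‖, ?_⟩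
    rw [smul_smul, mul_inv_cancel_right₀ w2]
    exact (congrArg Subtype.val hc).symm
  · have u1 : v ∈ Eu x := (Submodule.projection_apply_eq_zero_iff _).1 hv
    have u2 : v ∈ F x := hv' ▸ Submodule.projection_apply_mem _ v
    have key : ∀ g : M → M, g = f^[N * j] →
        len (Df (E := E) g v) ≤ max C 1 * (m1 ^ N) ^ j * len (E := E) v := by
      rintro _ rfl
      rcases Nat.eq_zero_or_pos j with rfl | hj
      · have t : Df (E := E) (id : M → M) v = v := by
          rw [Df, mfderiv_id]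
          rfl
        have t' : len (Df (E := E) f^[N * 0] v) = len (E := E) v := congrArg (len (E := E)) t
        rw [t', pow_zero, mul_one]
        exact le_mul_of_one_le_left (norm_nonneg v) c1
      · have t := (rw (N * j) (Nat.mul_pos n1 hj) x v ⟨u2, u1⟩).2
        rw [← pow_mul]
        simp only [len] at t ⊢
        exact t.trans (by gcongr)
    have t1 := key _ (Function.iterate_mul f N j).symm
    simp only [len] at t1
    have t2 : (4 * (max C 1 * m1 ^ N))⁻¹ ^ j * (m1 ^ N) ^ j ≤ 1 := by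
      rw [← mul_pow]
      refine pow_le_one₀ (by positivity) ?_
      rw [inv_mul_le_iff₀ (by positivity)]
      have : m1 ^ N ≤ max C 1 * m1 ^ N := le_mul_of_one_le_left (by positivity) c1
      have : 0 < m1 ^ N := by positivity
      linarith
    calc _ ≤ (4 * (max C 1 * m1 ^ N))⁻¹ ^ j * (max C 1 * (m1 ^ N) ^ j * ‖v‖) :=
          mul_le_mul_of_nonneg_left t1 (by positivity)
      _ = max C 1 * ((4 * (max C 1 * m1 ^ N))⁻¹ ^ j * (m1 ^ N) ^ j * ‖v‖) := by ring
      _ ≤ max C 1 * (1 * ‖v‖) := by gcongr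
      _ = _ := by rw [one_mul]

end Pool.Agent.Results.MP_0a0487_an.WeakPinched
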